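import Mathlib

set_option autoImplicit false

namespace Pool.Agent.Results.MP_eb9ef7_pr.Selection

open MeasureTheory Filter Topology Metric Set
open scoped ENNReal BoundedContinuousFunction

/-- a random closed set: closed values, Effros measurable -/
def IsRCS {Ω E : Type} [MeasurableSpace Ω] [TopologicalSpace E] (X : Ω → Set E) : Prop :=
  (∀ ω, IsClosed (X ω)) ∧ ∀ G : Set E, IsOpen G → MeasurableSet {ω | (X ω ∩ G).Nonempty}

variable {E : Type} [MetricSpace E] (x : ℕ → E) (r : ℕ → ℝ)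

def N : ℕ → ℕ → ℕ → Prop
  | 0, _, _ => True
  | k + 1, a, i => dist (x a) (x i) < 2 * (1 / 2) ^ k

noncomputable def J (d : ℕ → ℝ≥0∞) : ℕ → ℕ
  | 0 => sInf {i | d i < .ofReal (r 0)}
  | k + 1 => sInf {i | d i < .ofReal (r (k + 1)) ∧ N x (k + 1) (J d k) i}

lemma J_eq (d : ℕ → ℝ≥0∞) (k : ℕ) :
    J x r d k = sInf {i | d i < .ofReal (r k) ∧ N x k (J x r d (k - 1)) i} := by
  cases k <;> simp [J, N]

def O (K : ℕ) (j : ℕ → ℕ) : Set (ℕ → ℝ≥0∞) :=
  {d | ∀ k ≤ K, d (j k) < .ofReal (r k) ∧ N x k (j (k - 1)) (j k) ∧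
    ∀ i < j k, N x k (j (k - 1)) i → .ofReal (r k) < d i}

lemma O_open (K : ℕ) (j : ℕ → ℕ) : IsOpen (O x r K j) := by
  have : O x r K j = ⋂ k ∈ Finset.range (K + 1), ({d | d (j k) < .ofReal (r k)} ∩
      ({_d | N x k (j (k - 1)) (j k)} ∩ ⋂ i ∈ Finset.range (j k), ⋂ _ : N x k (j (k - 1)) i,
        {d | .ofReal (r k) < d i})) := by
    ext d
    simp [O, Nat.lt_succ_iff]
  rw [this]
  exact isOpen_biInter_finset fun k _ => (isOpen_lt (continuous_apply _) continuous_const).inter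
    (isOpen_const.inter (isOpen_biInter_finset fun i _ => isOpen_iInter_of_finite fun _ =>
      isOpen_lt continuous_const (continuous_apply _)))

lemma O_J {K : ℕ} {j : ℕ → ℕ} {d : ℕ → ℝ≥0∞} (h : d ∈ O x r K j) (k : ℕ) (hk : k ≤ K) :
    J x r d k = j k := by
  have key : ∀ k ≤ K, N x k (J x r d (k - 1)) = N x k (j (k - 1)) → J x r d k = j k := by
    intro k hk e
    rw [J_eq, e]
    refine IsLeast.csInf_eq ⟨⟨(h k hk).1, (h k hk).2.1⟩, fun i hi => not_lt.1 fun h1 => ?_⟩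
    exact ((h k hk).2.2 i h1 hi.2).not_gt hi.1
  induction k with
  | zero => exact key 0 hk rfl
  | succ k ih => exact key _ hk (by rw [Nat.add_sub_cancel, ih (by omega)])

lemma J_meas (k : ℕ) : Measurable fun d => J x r d k := by
  have m : Measurable fun q : ℕ → Prop => sInf {i | q i} := by
    refine measurable_of_Iic fun n => ?_
    have : (fun q : ℕ → Prop => sInf {i | q i}) ⁻¹' Iic n =
        (⋂ i, {q | q i}ᶜ) ∪ ⋃ i ≤ n, {q | q i} := by
      ext q
      simp only [mem_preimage, mem_Iic, mem_union, mem_iInter, mem_compl_iff, mem_ofPred_eq,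
        mem_iUnion, exists_prop]
      refine ⟨fun h => ?_, fun h => h.elim (fun h => ?_) fun ⟨i, h1, h2⟩ =>
        (Nat.sInf_le h2).trans h1⟩
      · by_cases h1 : {i | q i}.Nonempty
        · exact .inr ⟨_, h, Nat.sInf_mem h1⟩
        · exact .inl fun i hi => h1 ⟨i, hi⟩
      · rw [show {i | q i} = ∅ from eq_empty_of_forall_notMem h]
        simp
    have a : ∀ i, MeasurableSet {q : ℕ → Prop | q i} := fun i =>
      measurableSet_setOfPred.2 (measurable_pi_apply i)
    rw [this]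
    exact (MeasurableSet.iInter fun i => (a i).compl).union (.iUnion fun i => .iUnion fun _ => a i)
  have b : ∀ i k, Measurable fun d : ℕ → ℝ≥0∞ => d i < .ofReal (r k) := fun i k =>
    measurableSet_setOfPred.1 (measurableSet_lt (measurable_pi_apply i) measurable_const)
  induction k with
  | zero => exact m.comp (measurable_pi_lambda _ fun i => b i 0)
  | succ k ih =>
    exact m.comp (measurable_pi_lambda _ fun i => (b i _).and
      ((Measurable.of_discrete (f := fun a => N x (k + 1) a i)).comp ih))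

noncomputable def sel (d : ℕ → ℝ≥0∞) : E :=
  haveI : Nonempty E := ⟨x 0⟩
  limUnder atTop fun k => x (J x r d k)

variable {x r} (hx : DenseRange x) (h0 : ∀ k, 0 < r k) (h1 : ∀ k, r k ≤ (1 / 2) ^ k)
include hx h0 h1

lemma J_mem {F : Set E} (hF : F.Nonempty) (k : ℕ) :
    infEDist (x (J x r (fun i => infEDist (x i) F) k)) F < .ofReal (r k) ∧
      N x k (J x r (fun i => infEDist (x i) F) (k - 1)) (J x r (fun i => infEDist (x i) F) k) := by
  have a : ∀ y ∈ F, ∀ k, ∃ i, infEDist (x i) F < .ofReal (r k) ∧ dist y (x i) < r k :=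
    fun y hy k => by
      obtain ⟨i, hi⟩ := hx.exists_dist_lt y (h0 k)
      exact ⟨i, infEDist_lt_iff.2 ⟨y, hy, edist_lt_ofReal.2 (dist_comm y _ ▸ hi)⟩, hi⟩
  induction k with
  | zero =>
    obtain ⟨y, hy⟩ := hF
    obtain ⟨i, hi, -⟩ := a y hy 0
    exact ⟨Nat.sInf_mem (s := {i | infEDist (x i) F < .ofReal (r 0)}) ⟨i, hi⟩, trivial⟩
  | succ k ih =>
    obtain ⟨y, hy, h2⟩ := infEDist_lt_iff.1 ih.1
    obtain ⟨i, hi, h3⟩ := a y hy (k + 1)
    refine Nat.sInf_mem (s := {i | infEDist (x i) F < .ofReal (r (k + 1)) ∧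
      N x (k + 1) (J x r (fun i => infEDist (x i) F) k) i}) ⟨i, hi, ?_⟩
    refine (dist_triangle _ y _).trans_lt ?_
    have := edist_lt_ofReal.1 h2
    have := h1 k
    have := h1 (k + 1)
    have : (0 : ℝ) < (1 / 2) ^ k := by positivity
    rw [pow_succ] at *
    linarith

lemma sel_spec [CompleteSpace E] {F : Set E} (hc : IsClosed F) (hF : F.Nonempty) :
    sel x r (fun i => infEDist (x i) F) ∈ F ∧ ∀ K, dist (x (J x r (fun i => infEDist (x i) F) K))
      (sel x r fun i => infEDist (x i) F) ≤ 4 * (1 / 2) ^ K := by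
  have a := fun k => ((J_mem hx h0 h1 hF (k + 1)).2 : dist _ _ < _).le
  have hl := (cauchySeq_of_le_geometric (1 / 2) 2 (by norm_num) a).tendsto_limUnder
  have b : ∀ K, dist (x (J x r (fun i => infEDist (x i) F) K))
      (sel x r fun i => infEDist (x i) F) ≤ 4 * (1 / 2) ^ K := fun K =>
    (dist_le_of_le_geometric_of_tendsto (1 / 2) 2 (by norm_num) a hl K).trans_eq (by ring)
  refine ⟨hc.closure_subset (Metric.mem_closure_iff.2 fun ε hε => ?_), b⟩
  obtain ⟨K, hK⟩ := exists_pow_lt_of_lt_one (show 0 < ε / 5 by positivity)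
    (show (1 / 2 : ℝ) < 1 by norm_num)
  obtain ⟨y, hy, h2⟩ := infEDist_lt_iff.1 (J_mem hx h0 h1 hF K).1
  refine ⟨y, hy, (dist_triangle_left _ _ (x (J x r (fun i => infEDist (x i) F) K))).trans_lt ?_⟩
  have := edist_lt_ofReal.1 h2
  linarith [b K, h1 K]

lemma J_O {F : Set E} (hF : F.Nonempty) (h : ∀ i k, infEDist (x i) F ≠ .ofReal (r k)) (K : ℕ) :
    (fun i => infEDist (x i) F) ∈ O x r K (J x r fun i => infEDist (x i) F) := fun k _ => by
  refine ⟨(J_mem hx h0 h1 hF k).1, (J_mem hx h0 h1 hF k).2, fun i hi h2 => ?_⟩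
  rw [J_eq] at hi
  exact lt_of_le_of_ne (not_lt.1 fun h3 => Nat.notMem_of_lt_sInf hi ⟨h3, h2⟩) (h i k).symm

omit hx h0 h1

lemma rho_meas {Ω : Type} [MeasurableSpace Ω] {X : Ω → Set E} (h : IsRCS X) (y : E) :
    Measurable fun ω => infEDist y (X ω) := measurable_of_Iio fun t => by
  have := h.2 {z | edist y z < t} (isOpen_lt (by fun_prop) continuous_const)
  have e : (fun ω => infEDist y (X ω)) ⁻¹' Iio t = {ω | (X ω ∩ {z | edist y z < t}).Nonempty} :=
    Set.ext fun ω => infEDist_lt_iff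
  rwa [e]

def U (x : ℕ → E) (r : ℕ → ℝ) (G : Set E) (m : ℕ) : Set (Fin m → ℝ≥0∞) :=
  ⋃ (K : ℕ) (j : ℕ → ℕ) (_ : (∀ k ≤ K, j k < m) ∧ closedBall (x (j K)) (4 * (1 / 2) ^ K) ⊆ G),
    (fun d i => if h : i < m then d ⟨i, h⟩ else ⊤) ⁻¹' O x r K j

lemma U_open (G : Set E) (m : ℕ) : IsOpen (U x r G m) :=
  isOpen_iUnion fun K => isOpen_iUnion fun j => isOpen_iUnion fun _ =>
    (O_open x r K j).preimage (continuous_pi fun i => by
      split_ifs
      · exact continuous_apply _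
      · exact continuous_const)

lemma mem_U {G : Set E} {m : ℕ} {d : ℕ → ℝ≥0∞} : (fun i : Fin m => d i) ∈ U x r G m ↔
    ∃ (K : ℕ) (j : ℕ → ℕ), ((∀ k ≤ K, j k < m) ∧ closedBall (x (j K)) (4 * (1 / 2) ^ K) ⊆ G) ∧
      d ∈ O x r K j := by
  simp only [U, mem_iUnion, exists_prop, mem_preimage]
  refine exists₂_congr fun K j => and_congr_right fun h => forall₂_congr fun k hk => ?_
  simp only [dif_pos (h.1 k hk)]
  refine and_congr_right fun _ => and_congr_right fun _ => forall₂_congr fun i hi => ?_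
  rw [dif_pos (hi.trans (h.1 k hk))]

theorem result (E : Type) [MetricSpace E] [CompleteSpace E] [TopologicalSpace.SeparableSpace E]
    [MeasurableSpace E] [BorelSpace E] (Ω : ℕ → Type) [∀ n, MeasurableSpace (Ω n)]
    (P : ∀ n, Measure (Ω n)) [∀ n, IsProbabilityMeasure (P n)] (X : ∀ n, Ω n → Set E)
    (Ω' : Type) [MeasurableSpace Ω'] (Q : Measure Ω') [IsProbabilityMeasure Q] (Y : Ω' → Set E)
    (hX : ∀ n, IsRCS (X n)) (hY : IsRCS Y) (neX : ∀ n, ∀ᵐ ω ∂P n, (X n ω).Nonempty)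
    (neY : ∀ᵐ ω ∂Q, (Y ω).Nonempty)
    (conv : ∀ (k : ℕ) (x : Fin k → E) (g : (Fin k → ℝ≥0∞) →ᵇ ℝ),
      Tendsto (fun n => ∫ ω, g (fun i => infEDist (x i) (X n ω)) ∂P n) atTop
        (𝓝 (∫ ω, g (fun i => infEDist (x i) (Y ω)) ∂Q))) :
    ∃ (ξ : ∀ n, Ω n → E) (η : Ω' → E), (∀ n, Measurable (ξ n) ∧ ∀ᵐ ω ∂P n, ξ n ω ∈ X n ω) ∧
      (Measurable η ∧ ∀ᵐ ω ∂Q, η ω ∈ Y ω) ∧
      ∀ g : E →ᵇ ℝ, Tendsto (fun n => ∫ ω, g (ξ n ω) ∂P n) atTop (𝓝 (∫ ω, g (η ω) ∂Q)) := by
  obtain ⟨ω₀, y₀, -⟩ := neY.exists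
  haveI : Nonempty E := ⟨y₀⟩
  obtain ⟨x, hx⟩ := TopologicalSpace.exists_dense_seq E
  have hc : (⋃ i, {t : ℝ | 0 < Q {ω | (infEDist (x i) (Y ω)).toReal = t}}).Countable :=
    countable_iUnion fun i => Measure.countable_meas_level_set_pos (rho_meas hY _).ennreal_toReal
  have ex : ∀ k : ℕ, ∃ t ∈ (⋃ i, {t : ℝ | 0 < Q {ω | (infEDist (x i) (Y ω)).toReal = t}})ᶜ,
      t ∈ Ioo (0 : ℝ) ((1 / 2) ^ k) := fun k =>
    (hc.dense_compl ℝ).exists_mem_open isOpen_Ioo (nonempty_Ioo.2 (by positivity))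
  choose r hr h01 using ex
  have h0 := fun k => (h01 k).1
  have h1 := fun k => (h01 k).2.le
  have ms : Measurable (sel x r) := (StronglyMeasurable.limUnder fun k =>
    ((Measurable.of_discrete (f := x)).comp (J_meas x r k)).stronglyMeasurable).measurable
  have mX := fun n => ms.comp (measurable_pi_lambda _ fun i => rho_meas (hX n) (x i))
  have mY := ms.comp (measurable_pi_lambda _ fun i => rho_meas hY (x i))
  refine ⟨_, _, fun n => ⟨mX n, (neX n).mono fun ω h => (sel_spec hx h0 h1 ((hX n).1 ω) h).1⟩,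
    ⟨mY, neY.mono fun ω h => (sel_spec hx h0 h1 (hY.1 ω) h).1⟩, fun g => ?_⟩
  have key := tendsto_of_forall_isOpen_le_liminf_nat'
    (μ := ProbabilityMeasure.map ⟨Q, inferInstance⟩ mY.aemeasurable)
    (μs := fun n => ProbabilityMeasure.map ⟨P n, inferInstance⟩ (mX n).aemeasurable) fun G hG => ?_
  · have := ProbabilityMeasure.tendsto_iff_forall_integral_tendsto.1 key g
    simpa only [ProbabilityMeasure.toMeasure_map, ProbabilityMeasure.coe_mk,
      integral_map (mX _).aemeasurable g.continuous.aestronglyMeasurable,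
      integral_map mY.aemeasurable g.continuous.aestronglyMeasurable] using this
  simp only [ProbabilityMeasure.toMeasure_map, ProbabilityMeasure.coe_mk,
    Measure.map_apply (mX _) hG.measurableSet, Measure.map_apply mY hG.measurableSet]
  let A : ℕ → Set Ω' := fun m => (fun ω (i : Fin m) => infEDist (x i) (Y ω)) ⁻¹' U x r G m
  have mono : Monotone A := fun m m' h ω hω => by
    obtain ⟨K, j, h2, h3⟩ := (mem_U (d := fun i => infEDist (x i) (Y ω))).1 hω
    exact (mem_U (d := fun i => infEDist (x i) (Y ω))).2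
      ⟨K, j, ⟨fun k hk => (h2.1 k hk).trans_le h, h2.2⟩, h3⟩
  have ae : ∀ᵐ ω ∂Q, ∀ i k, infEDist (x i) (Y ω) ≠ .ofReal (r k) := by
    refine ae_all_iff.2 fun i => ae_all_iff.2 fun k => ?_
    have : Q {ω | (infEDist (x i) (Y ω)).toReal = r k} ≤ 0 :=
      not_lt.1 fun h => hr k (mem_iUnion.2 ⟨i, h⟩)
    refine measure_mono_null (fun ω h => ?_) (nonpos_iff_eq_zero.1 this)
    have h' : infEDist (x i) (Y ω) = .ofReal (r k) := not_not.1 h
    exact (congrArg _ h').trans (ENNReal.toReal_ofReal (h0 k).le)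
  refine le_trans (measure_mono_ae (t := ⋃ m, A m) ?_) ?_
  · filter_upwards [ae, neY] with ω a1 a2 a3
    obtain ⟨ε, hε, a4⟩ := Metric.isOpen_iff.1 hG _ a3
    obtain ⟨K, hK⟩ := exists_pow_lt_of_lt_one (show 0 < ε / 8 by positivity)
      (show (1 / 2 : ℝ) < 1 by norm_num)
    refine mem_iUnion.2 ⟨(Finset.range (K + 1)).sup (J x r fun i => infEDist (x i) (Y ω)) + 1,
      (mem_U (d := fun i => infEDist (x i) (Y ω))).2 ⟨K, _, ⟨fun k hk => Nat.lt_succ_of_le
        (Finset.le_sup (Finset.mem_range.2 (Nat.lt_succ_of_le hk))), fun z hz => a4 ?_⟩,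
        J_O hx h0 h1 a2 a1 K⟩⟩
    have := (sel_spec hx h0 h1 (hY.1 ω) a2).2 K
    refine (dist_triangle _ _ _).trans_lt ((add_le_add hz this).trans_lt (by linarith))
  rw [mono.measure_iUnion]
  refine iSup_le fun m => ?_
  have m1 := fun n => measurable_pi_lambda (fun ω (i : Fin m) => infEDist (x i) (X n ω))
    fun i => rho_meas (hX n) (x i)
  have m2 := measurable_pi_lambda (fun ω (i : Fin m) => infEDist (x i) (Y ω))
    fun i => rho_meas hY (x i)
  have t : Tendsto (fun n => ProbabilityMeasure.map ⟨P n, inferInstance⟩ (m1 n).aemeasurable) atTop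
      (𝓝 (ProbabilityMeasure.map ⟨Q, inferInstance⟩ m2.aemeasurable)) := by
    refine ProbabilityMeasure.tendsto_iff_forall_integral_tendsto.2 fun g => ?_
    simpa only [ProbabilityMeasure.toMeasure_map, ProbabilityMeasure.coe_mk,
      integral_map (m1 _).aemeasurable g.continuous.aestronglyMeasurable,
      integral_map m2.aemeasurable g.continuous.aestronglyMeasurable] using conv m _ g
  have := ProbabilityMeasure.le_liminf_measure_open_of_tendsto t (U_open (x := x) (r := r) G m)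
  simp only [ProbabilityMeasure.toMeasure_map, ProbabilityMeasure.coe_mk,
    Measure.map_apply (m1 _) (U_open G m).measurableSet,
    Measure.map_apply m2 (U_open G m).measurableSet] at this
  refine this.trans (liminf_le_liminf (.of_forall fun n => measure_mono fun ω hω => ?_))
  obtain ⟨K, j, h2, h3⟩ := (mem_U (d := fun i => infEDist (x i) (X n ω))).1 hω
  obtain ⟨y, hy, -⟩ := infEDist_lt_iff.1 (h3 0 (Nat.zero_le _)).1
  have := (sel_spec hx h0 h1 ((hX n).1 ω) ⟨y, hy⟩).2 K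
  rw [O_J x r h3 K le_rfl] at this
  exact h2.2 (mem_closedBall'.2 this)

end Pool.Agent.Results.MP_eb9ef7_pr.Selection
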